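import Pool.Agent.RA6.RepU99

/-!
MP_cf0286_al: one neighbourhood controls the size of a representation of A_6([i,i,i+2]).
-/

namespace Pool.Agent.Results.MP_cf0286_al.NeighbourhoodBound

open Set Pool.Agent.RA6 Pool.Agent.RA6U

universe u

theorem prod_lower {ι : Type} [DecidableEq ι] (K : Finset ι) (m : ι → ℕ) :
    (∀ g ∈ K, 1 ≤ m g) → ∑ g ∈ K, m g + 1 ≤ ∏ g ∈ K, m g + K.card := by
  induction K using Finset.induction_on with
  | empty => intro _; simp
  | insert g K hg ih =>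
    intro hm
    rw [Finset.sum_insert hg, Finset.prod_insert hg, Finset.card_insert_of_notMem hg]
    have hmg := hm g (Finset.mem_insert_self g K)
    have hm' : ∀ j ∈ K, 1 ≤ m j := fun j hj => hm j (Finset.mem_insert_of_mem hj)
    have h1 := ih hm'
    have h2 : 1 ≤ ∏ j ∈ K, m j := Finset.one_le_prod' hm'
    obtain ⟨p, hp⟩ : ∃ p, m g = p + 1 := ⟨m g - 1, by omega⟩
    rw [hp]
    nlinarith [Nat.mul_le_mul_left p h2]

/-- The even residues modulo 6. -/
def E : Finset (ZMod 6) := {0, 2, 4}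

/-- Shift the colours of the parity of `a` by `s` and the others by `s'`. -/
def rot (a s s' t : ZMod 6) : ZMod 6 := t + if t - a ∈ E then s else s'

theorem rot_injective : ∀ a : ZMod 6, ∀ s ∈ E, ∀ s' ∈ E, ∀ t t' : ZMod 6,
    rot a s s' t = rot a s s' t' → t = t' := by decide

theorem rot_eq_iff : ∀ a g0 : ZMod 6, g0 - a ∈ E → ∀ s' ∈ E, ∀ t : ZMod 6,
    (rot a 0 s' t = g0 ↔ t = g0) := by decide

theorem rot_sep : ∀ a e : ZMod 6, ∀ s ∈ E, ∀ s' ∈ E, ∀ q ∈ E, ∀ q' ∈ E, ∃ t : ZMod 6,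
    Forbidden (rot a s s' t) (rot a q q' t) e := by
  have h1 : ∀ a e : ZMod 6, e - a ∈ E → ∀ s ∈ E, ∀ q ∈ E, ∃ t : ZMod 6,
      t - a ∈ E ∧ Forbidden (t + s) (t + q) e := by decide
  have h2 : ∀ a e : ZMod 6, e - a ∉ E → ∀ s ∈ E, ∀ q ∈ E, ∃ t : ZMod 6,
      t - a ∉ E ∧ Forbidden (t + s) (t + q) e := by decide
  intro a e s hs s' hs' q hq q' hq'
  by_cases he : e - a ∈ E
  · obtain ⟨t, ht, hf⟩ := h1 a e he s hs q hq
    refine ⟨t, ?_⟩
    unfold rot
    rw [if_pos ht, if_pos ht]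
    exact hf
  · obtain ⟨t, ht, hf⟩ := h2 a e he s' hs' q' hq'
    refine ⟨t, ?_⟩
    unfold rot
    rw [if_neg ht, if_neg ht]
    exact hf

theorem rot_self : ∀ a s s' : ZMod 6, rot a s s' a = a + s := by decide

theorem rot_succ : ∀ a s s' : ZMod 6, rot a s s' (a + 1) = a + 1 + s' := by decide

theorem finite_and_ncard_le {U : Type u} {s : Set U} {k : ℕ}
    (h : ∀ t : Finset U, (t : Set U) ⊆ s → t.card ≤ k) : s.Finite ∧ s.ncard ≤ k := by
  have hfin : s.Finite := by
    by_contra hinf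
    obtain ⟨t, ht, hcard⟩ := Set.Infinite.exists_subset_card_eq hinf (k + 1)
    have := h t ht
    omega
  refine ⟨hfin, ?_⟩
  rw [Set.ncard_eq_toFinset_card s hfin]
  exact h _ (by simp)

section
variable {U : Type u} {c : U → U → ZMod 6}

theorem exists_edge (h : IsColouring c) (x : U) (s : ZMod 6) : ∃ w, x ≠ w ∧ c x w = s := by
  obtain ⟨p, q, hpq⟩ := h.nontriv
  have : ∃ y, x ≠ y := by
    by_cases hp : x = p
    · exact ⟨q, by rw [hp]; exact hpq⟩
    · exact ⟨p, hp⟩
  obtain ⟨y, hy⟩ := this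
  obtain ⟨t, ht⟩ := exists_third (c x y) s
  obtain ⟨w, hw, _, h1, _⟩ := h.witness x y hy s t ht
  exact ⟨w, hw.symm, h1⟩

variable [DecidableEq U]

/-- The points of the finite set `A` joined to `y` by colour `g`. -/
def fm (c : U → U → ZMod 6) (A : Finset U) (y : U) (g : ZMod 6) : Finset U :=
  A.filter (fun z => z ≠ y ∧ c z y = g)

theorem mem_fm {A : Finset U} {y z : U} {g : ZMod 6} :
    z ∈ fm c A y g ↔ z ∈ A ∧ z ≠ y ∧ c z y = g := by simp [fm]

/-- The rotated boxes of the points of `Y` are disjoint. -/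
theorem box_sum (h : IsColouring c) (a : ZMod 6) (S : ZMod 6 → Finset U) (Y : Finset U)
    (R : Finset (ZMod 6 × ZMod 6)) (hR : ∀ p ∈ R, p.1 ∈ E ∧ p.2 ∈ E) :
    ∑ q ∈ Y ×ˢ R, ∏ t, (fm c (S t) q.1 (rot a q.2.1 q.2.2 t)).card ≤
      ((Fintype.piFinset S).filter (fun f => Function.Injective f)).card := by
  have h1 : ∀ q ∈ Y ×ˢ R, ∏ t, (fm c (S t) q.1 (rot a q.2.1 q.2.2 t)).card =
      (Fintype.piFinset (fun t => fm c (S t) q.1 (rot a q.2.1 q.2.2 t))).card := by
    intro q _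
    rw [Fintype.card_piFinset]
  rw [Finset.sum_congr rfl h1, ← Finset.card_biUnion]
  · refine Finset.card_le_card ?_
    intro f hf
    obtain ⟨q, hq, hfy⟩ := Finset.mem_biUnion.mp hf
    rw [Fintype.mem_piFinset] at hfy
    refine Finset.mem_filter.mpr ⟨Fintype.mem_piFinset.mpr (fun g => (mem_fm.mp (hfy g)).1), ?_⟩
    intro g g' hgg
    have h2 := (mem_fm.mp (hfy g)).2.2
    have h3 := (mem_fm.mp (hfy g')).2.2
    rw [hgg, h3] at h2
    have h4 := hR q.2 (Finset.mem_product.mp hq).2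
    exact rot_injective a q.2.1 h4.1 q.2.2 h4.2 g g' h2.symm
  · rintro ⟨y, s, s'⟩ hp ⟨y', q, q'⟩ hq hne
    change Disjoint _ _
    rw [Finset.disjoint_left]
    intro f hf hf'
    rw [Fintype.mem_piFinset] at hf hf'
    have hp' := hR (s, s') (Finset.mem_product.mp hp).2
    have hq' := hR (q, q') (Finset.mem_product.mp hq).2
    by_cases hyy : y = y'
    · subst hyy
      have h2 := (mem_fm.mp (hf a)).2.2
      have h3 := (mem_fm.mp (hf' a)).2.2
      have h4 := (mem_fm.mp (hf (a + 1))).2.2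
      have h5 := (mem_fm.mp (hf' (a + 1))).2.2
      rw [h2] at h3
      rw [h4] at h5
      simp only [rot_self, rot_succ] at h3 h5
      exact hne (by rw [add_left_cancel h3, add_left_cancel h5])
    · obtain ⟨t, ht⟩ := rot_sep a (c y y') s hp'.1 s' hp'.2 q hq'.1 q' hq'.2
      have h2 := mem_fm.mp (hf t)
      have h3 := mem_fm.mp (hf' t)
      have h4 := h.no_forb y (f t) y' h2.2.1.symm h3.2.1 hyy
      rw [h.symm y (f t) h2.2.1.symm, h2.2.2, h3.2.2] at h4
      exact h4 ht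

theorem prod_rot (a : ZMod 6) {s s' : ZMod 6} (hs : s ∈ E) (hs' : s' ∈ E) (f : ZMod 6 → ℕ) :
    ∏ t, f (rot a s s' t) = ∏ g, f g := by
  have h1 : Function.Injective (rot a s s') := fun t t' h => rot_injective a s hs s' hs' t t' h
  exact Fintype.prod_bijective _ (Finite.injective_iff_bijective.mp h1) _ _ (fun _ => rfl)

theorem count_all (A : Finset U) :
    ((Fintype.piFinset (fun _ : ZMod 6 => A)).filter (fun f => Function.Injective f)).card ≤
      A.card.descFactorial 6 := by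
  have h1 : Fintype.card (ZMod 6 ↪ A) = A.card.descFactorial 6 := by
    rw [Fintype.card_embedding_eq, Fintype.card_coe, ZMod.card]
  rw [← h1, ← Finset.card_univ]
  refine Finset.card_le_card_of_surjOn (fun e g => (e g : U)) ?_
  intro f hf
  obtain ⟨hf1, hf2⟩ := Finset.mem_filter.mp (Finset.mem_coe.mp hf)
  rw [Fintype.mem_piFinset] at hf1
  refine ⟨⟨fun g => ⟨f g, hf1 g⟩, fun g g' hg => hf2 (Subtype.mk.inj hg)⟩, by simp, ?_⟩
  rfl

theorem count_one (A T : Finset U) (g0 : ZMod 6) :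
    ((Fintype.piFinset (fun g : ZMod 6 => if g = g0 then T else A)).filter
      (fun f => Function.Injective f)).card ≤ A.card.descFactorial 5 * T.card := by
  have h0 : Fintype.card {g : ZMod 6 // g ≠ g0} = 5 := by
    rw [Fintype.card_subtype_compl, ZMod.card, Fintype.card_subtype_eq]
  have h1 : Fintype.card (({g : ZMod 6 // g ≠ g0} ↪ A) × T) =
      A.card.descFactorial 5 * T.card := by
    rw [Fintype.card_prod, Fintype.card_embedding_eq, Fintype.card_coe, h0, Fintype.card_coe]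
  rw [← h1, ← Finset.card_univ]
  refine Finset.card_le_card_of_surjOn
    (fun p g => if hg : g ≠ g0 then (p.1 ⟨g, hg⟩ : U) else (p.2 : U)) ?_
  intro f hf
  obtain ⟨hf1, hf2⟩ := Finset.mem_filter.mp (Finset.mem_coe.mp hf)
  rw [Fintype.mem_piFinset] at hf1
  have hT : f g0 ∈ T := by have := hf1 g0; rwa [if_pos rfl] at this
  have hA : ∀ g, g ≠ g0 → f g ∈ A := by
    intro g hg
    have := hf1 g
    rwa [if_neg hg] at this
  refine ⟨(⟨fun g => ⟨f g.1, hA g.1 g.2⟩, fun g g' hg =>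
    Subtype.ext (hf2 (Subtype.mk.inj hg))⟩, ⟨f g0, hT⟩), by simp, ?_⟩
  funext g
  by_cases hg : g ≠ g0
  · simp only [hg, ne_eq, not_false_eq_true, dite_true]
    rfl
  · have hg' : g = g0 := not_not.mp hg
    simp only [hg', ne_eq, not_true_eq_false, dite_false]

/-- The data at a point `x` with a finite neighbourhood `A` in colour `a`. -/
structure Nb (c : U → U → ZMod 6) (x : U) (a : ZMod 6) (A : Finset U) : Prop where
  mem : ∀ z, z ∈ A ↔ x ≠ z ∧ c x z = a

variable {x : U} {a : ZMod 6} {A : Finset U}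

theorem fm_pos (h : IsColouring c) (hA : Nb c x a A) {y : U} {g : ZMod 6} (hxy : x ≠ y)
    (hg : ¬ Forbidden (c x y) a g) : 1 ≤ (fm c A y g).card := by
  obtain ⟨z, hz1, hz2, hz3, hz4⟩ := h.witness x y hxy a g hg
  rw [Nat.one_le_iff_ne_zero, Finset.card_ne_zero]
  exact ⟨z, mem_fm.mpr ⟨(hA.mem z).mpr ⟨hz1.symm, hz3⟩, hz2, hz4⟩⟩

theorem fm_zero (h : IsColouring c) (hA : Nb c x a A) {y : U} {g : ZMod 6} (hxy : x ≠ y)
    (hg : Forbidden (c x y) a g) : (fm c A y g).card = 0 := by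
  rw [Finset.card_eq_zero, Finset.eq_empty_iff_forall_notMem]
  intro z hz
  obtain ⟨hz1, hz2, hz3⟩ := mem_fm.mp hz
  obtain ⟨hz4, hz5⟩ := (hA.mem z).mp hz1
  have h1 := h.no_forb x z y hz4 hz2 hxy
  rw [hz5, hz3] at h1
  exact h1 (forb_swap23 _ _ _ (forb_swap12 _ _ _ hg))

theorem sum_fm (hA : Nb c x a A) {y : U} (hy : c x y ≠ a) :
    ∑ g, (fm c A y g).card = A.card := by
  rw [Finset.card_eq_sum_card_fiberwise (s := A) (f := fun z => c z y) (t := Finset.univ)
    (fun z _ => Finset.mem_univ _)]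
  refine Finset.sum_congr rfl (fun g _ => ?_)
  congr 1
  ext z
  simp only [mem_fm, Finset.mem_filter]
  constructor
  · rintro ⟨h1, _, h3⟩
    exact ⟨h1, h3⟩
  · rintro ⟨h1, h3⟩
    refine ⟨h1, ?_, h3⟩
    rintro rfl
    exact hy ((hA.mem z).mp h1).2

theorem six_le (h : IsColouring c) (hA : Nb c x a A) : 6 ≤ A.card := by
  obtain ⟨w, hxw, hw⟩ := exists_edge h x (a + 1)
  have hf : ∀ a g : ZMod 6, ¬ Forbidden (a + 1) a g := by decide
  have hne : ∀ a : ZMod 6, a + 1 ≠ a := by decide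
  have h1 : ∀ g ∈ (Finset.univ : Finset (ZMod 6)), 1 ≤ (fm c A w g).card := fun g _ =>
    fm_pos h hA hxw (by rw [hw]; exact hf a g)
  have h2 := Finset.sum_le_sum h1
  rw [sum_fm hA (by rw [hw]; exact hne a)] at h2
  have h3 : (∑ _i : ZMod 6, 1) = 6 := by decide
  rwa [h3] at h2

/-- The points joined to `x` by a colour of the other parity. -/
theorem bound_odd (h : IsColouring c) (hA : Nb c x a A) (Y : Finset U)
    (hY : ∀ y ∈ Y, x ≠ y ∧ (c x y = a + 1 ∨ c x y = a + 3 ∨ c x y = a + 5)) :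
    9 * Y.card ≤ A.card.descFactorial 5 := by
  have h1 := (box_sum h a (fun _ => A) Y (E ×ˢ E)
    (fun p hp => Finset.mem_product.mp hp)).trans (count_all A)
  have hd : ∀ a e g : ZMod 6, (e = a + 1 ∨ e = a + 3 ∨ e = a + 5) →
      ¬ Forbidden e a g ∧ e ≠ a := by decide
  have h2 : ∀ q ∈ Y ×ˢ (E ×ˢ E), A.card - 5 ≤
      ∏ t, (fm c A q.1 (rot a q.2.1 q.2.2 t)).card := by
    intro q hq
    obtain ⟨hy, hs⟩ := Finset.mem_product.mp hq
    obtain ⟨hs1, hs2⟩ := Finset.mem_product.mp hs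
    rw [prod_rot a hs1 hs2 (fun g => (fm c A q.1 g).card)]
    have h3 := prod_lower (Finset.univ : Finset (ZMod 6)) (fun g => (fm c A q.1 g).card)
      (fun g _ => fm_pos h hA (hY q.1 hy).1 (hd a _ g (hY q.1 hy).2).1)
    rw [sum_fm hA (hd a _ 0 (hY q.1 hy).2).2, Finset.card_univ, ZMod.card] at h3
    omega
  have h3 := Finset.sum_le_sum h2
  have hE : (E ×ˢ E).card = 9 := by decide
  rw [Finset.sum_const, smul_eq_mul, Finset.card_product, hE] at h3
  have h4 := h3.trans h1
  have h5 := six_le h hA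
  have h6 : A.card.descFactorial 6 = (A.card - 5) * A.card.descFactorial 5 :=
    Nat.descFactorial_succ _ _
  rw [h6, mul_comm, mul_comm Y.card 9] at h4
  exact Nat.le_of_mul_le_mul_left h4 (by omega)

theorem bound_one (h : IsColouring c) (hA : Nb c x a A) (Y T : Finset U) (e g0 : ZMod 6)
    (hga : g0 - a ∈ E)
    (hea : e ≠ a) (he : ∀ g, g ≠ g0 → ¬ Forbidden e a g) (hg0 : Forbidden e a g0)
    (hY : ∀ y ∈ Y, x ≠ y ∧ c x y = e) (hT : ∀ y ∈ Y, ∃ t ∈ T, t ≠ y ∧ c t y = g0) :
    3 * Y.card ≤ A.card.descFactorial 4 * T.card := by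
  have hE0 : (0 : ZMod 6) ∈ E := by decide
  have h1 := (box_sum h a (fun g => if g = g0 then T else A) Y (({0} : Finset (ZMod 6)) ×ˢ E)
    (fun p hp => by
      obtain ⟨hp1, hp2⟩ := Finset.mem_product.mp hp
      rw [Finset.mem_singleton.mp hp1]
      exact ⟨hE0, hp2⟩)).trans (count_one A T g0)
  have h2 : ∀ q ∈ Y ×ˢ (({0} : Finset (ZMod 6)) ×ˢ E), A.card - 4 ≤
      ∏ t, (fm c (if t = g0 then T else A) q.1 (rot a q.2.1 q.2.2 t)).card := by
    rintro ⟨y, s, s'⟩ hq
    obtain ⟨hy, hs⟩ := Finset.mem_product.mp hq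
    obtain ⟨hs1, hs2⟩ := Finset.mem_product.mp hs
    have hs0 : s = 0 := Finset.mem_singleton.mp hs1
    subst hs0
    simp only at hy hs2 ⊢
    have hrot : ∏ t, (fm c (if t = g0 then T else A) y (rot a 0 s' t)).card =
        ∏ g, (fm c (if g = g0 then T else A) y g).card := by
      rw [← prod_rot a hE0 hs2 (fun g => (fm c (if g = g0 then T else A) y g).card)]
      refine Finset.prod_congr rfl (fun t _ => ?_)
      have h3 := rot_eq_iff a g0 hga s' hs2 t
      by_cases ht : t = g0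
      · rw [if_pos ht, if_pos (h3.mpr ht)]
      · rw [if_neg ht, if_neg (fun e => ht (h3.mp e))]
    rw [hrot]
    obtain ⟨hxy, hye⟩ := hY y hy
    rw [← Finset.mul_prod_erase Finset.univ _ (Finset.mem_univ g0), if_pos rfl]
    have h3 : 1 ≤ (fm c T y g0).card := by
      obtain ⟨t, ht1, ht2, ht3⟩ := hT y hy
      rw [Nat.one_le_iff_ne_zero, Finset.card_ne_zero]
      exact ⟨t, mem_fm.mpr ⟨ht1, ht2, ht3⟩⟩
    have h4 : ∏ g ∈ Finset.univ.erase g0, (fm c (if g = g0 then T else A) y g).card =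
        ∏ g ∈ Finset.univ.erase g0, (fm c A y g).card := by
      refine Finset.prod_congr rfl (fun g hg => ?_)
      rw [if_neg (Finset.mem_erase.mp hg).1]
    rw [h4]
    have h5 := prod_lower (Finset.univ.erase g0) (fun g => (fm c A y g).card)
      (fun g hg => fm_pos h hA hxy (by rw [hye]; exact he g (Finset.mem_erase.mp hg).1))
    have h6 := sum_fm hA (y := y) (by rw [hye]; exact hea)
    rw [← Finset.add_sum_erase Finset.univ _ (Finset.mem_univ g0),
      fm_zero h hA hxy (by rw [hye]; exact hg0), zero_add] at h6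
    rw [h6, Finset.card_erase_of_mem (Finset.mem_univ g0), Finset.card_univ, ZMod.card] at h5
    have h7 : A.card - 4 ≤ ∏ g ∈ Finset.univ.erase g0, (fm c A y g).card := by omega
    exact h7.trans (Nat.le_mul_of_pos_left _ h3)
  have h3 := Finset.sum_le_sum h2
  have hE : (({0} : Finset (ZMod 6)) ×ˢ E).card = 3 := by decide
  rw [Finset.sum_const, smul_eq_mul, Finset.card_product, hE] at h3
  have h4 := h3.trans h1
  have h5 := six_le h hA
  have h6 : A.card.descFactorial 5 = (A.card - 4) * A.card.descFactorial 4 :=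
    Nat.descFactorial_succ _ _
  rw [h6, mul_comm, mul_assoc, mul_comm Y.card 3] at h4
  exact Nat.le_of_mul_le_mul_left h4 (by omega)

end

section
variable {U : Type u} {c : U → U → ZMod 6}

theorem univ_eq_union (x : U) (a : ZMod 6) :
    (Set.univ : Set U) = {x} ∪ cn c a x ∪
      {y | x ≠ y ∧ (c x y = a + 1 ∨ c x y = a + 3 ∨ c x y = a + 5)} ∪
      cn c (a + 4) x ∪ cn c (a + 2) x := by
  ext y
  simp only [Set.mem_univ, Set.mem_union, Set.mem_singleton_iff, mem_cn, true_iff]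
  have hd : ∀ a e : ZMod 6, e = a ∨ (e = a + 1 ∨ e = a + 3 ∨ e = a + 5) ∨ e = a + 4 ∨
      e = a + 2 := by decide
  by_cases hxy : x = y
  · left; left; left; left; exact hxy.symm
  · rcases hd a (c x y) with h1 | h1 | h1 | h1
    · left; left; left; right; exact ⟨hxy, h1⟩
    · left; left; right; exact ⟨hxy, h1⟩
    · left; right; exact ⟨hxy, h1⟩
    · right; exact ⟨hxy, h1⟩

theorem finite_bound (h : IsColouring c) (x : U) (a : ZMod 6) (hfin : (cn c a x).Finite) :
    Finite U ∧ 9 * Nat.card U ≤ 9 + 9 * (cn c a x).ncard +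
      (cn c a x).ncard.descFactorial 5 + 3 * (cn c a x).ncard.descFactorial 4 +
      (cn c a x).ncard.descFactorial 4 ^ 2 := by
  classical
  set A : Finset U := hfin.toFinset with hAdef
  have hA : Nb c x a A := ⟨fun z => by rw [hAdef, Set.Finite.mem_toFinset]; exact mem_cn⟩
  have hm : (cn c a x).ncard = A.card := Set.ncard_eq_toFinset_card _ hfin
  rw [hm]
  have h1 := finite_and_ncard_le (U := U)
    (s := {y | x ≠ y ∧ (c x y = a + 1 ∨ c x y = a + 3 ∨ c x y = a + 5)})
    (k := A.card.descFactorial 5 / 9) (fun Y hY => by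
      have := bound_odd h hA Y (fun y hy => hY hy)
      omega)
  have hd1 : ∀ a : ZMod 6, a + 4 ≠ a ∧ (∀ g, g ≠ a + 4 → ¬ Forbidden (a + 4) a g) ∧
      Forbidden (a + 4) a (a + 4) ∧ a + 4 - a ∈ E := by decide
  have hd2 : ∀ a : ZMod 6, a + 2 ≠ a ∧ (∀ g, g ≠ a → ¬ Forbidden (a + 2) a g) ∧
      Forbidden (a + 2) a a ∧ ¬ Forbidden (a + 2) (a + 4) a ∧ a - a ∈ E := by decide
  have h2 := finite_and_ncard_le (U := U) (s := cn c (a + 4) x)
    (k := A.card.descFactorial 4 / 3) (fun Y hY => by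
      have := bound_one h hA Y {x} (a + 4) (a + 4) (hd1 a).2.2.2 (hd1 a).1 (hd1 a).2.1
        (hd1 a).2.2.1 (fun y hy => hY hy)
        (fun y hy => ⟨x, by simp, (hY hy).1, (hY hy).2⟩)
      rw [Finset.card_singleton] at this
      omega)
  have h3 := finite_and_ncard_le (U := U) (s := cn c (a + 2) x)
    (k := A.card.descFactorial 4 * (h2.1.toFinset).card / 3) (fun Y hY => by
      have := bound_one h hA Y h2.1.toFinset (a + 2) a (hd2 a).2.2.2.2 (hd2 a).1 (hd2 a).2.1
        (hd2 a).2.2.1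
        (fun y hy => hY hy) (fun y hy => by
          have hy' := hY hy
          obtain ⟨t, ht1, ht2, ht3, ht4⟩ := h.witness x y hy'.1 (a + 4) a
            (by rw [hy'.2]; exact (hd2 a).2.2.2.1)
          exact ⟨t, by rw [Set.Finite.mem_toFinset]; exact ⟨ht1.symm, ht3⟩, ht2, ht4⟩)
      omega)
  have h4 : 3 * (h2.1.toFinset).card ≤ A.card.descFactorial 4 := by
    have h5 := h2.2
    rw [Set.ncard_eq_toFinset_card _ h2.1] at h5
    omega
  have h5 : 9 * (cn c (a + 2) x).ncard ≤ A.card.descFactorial 4 ^ 2 := by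
    have h6 : 3 * (cn c (a + 2) x).ncard ≤
        A.card.descFactorial 4 * (h2.1.toFinset).card := by
      have := h3.2
      omega
    have h7 := Nat.mul_le_mul_left (A.card.descFactorial 4) h4
    rw [pow_two]
    calc 9 * (cn c (a + 2) x).ncard = 3 * (3 * (cn c (a + 2) x).ncard) := by ring
      _ ≤ 3 * (A.card.descFactorial 4 * (h2.1.toFinset).card) := Nat.mul_le_mul_left 3 h6
      _ = A.card.descFactorial 4 * (3 * (h2.1.toFinset).card) := by ring
      _ ≤ _ := h7
  have huf : (Set.univ : Set U).Finite := by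
    rw [univ_eq_union (c := c) x a]
    exact ((((Set.finite_singleton x).union hfin).union h1.1).union h2.1).union h3.1
  refine ⟨Set.finite_univ_iff.mp huf, ?_⟩
  have h10 : Nat.card U ≤ 1 + A.card +
      {y | x ≠ y ∧ (c x y = a + 1 ∨ c x y = a + 3 ∨ c x y = a + 5)}.ncard +
      (cn c (a + 4) x).ncard + (cn c (a + 2) x).ncard := by
    rw [← Set.ncard_univ, univ_eq_union (c := c) x a]
    refine (Set.ncard_union_le _ _).trans (Nat.add_le_add ?_ le_rfl)
    refine (Set.ncard_union_le _ _).trans (Nat.add_le_add ?_ le_rfl)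
    refine (Set.ncard_union_le _ _).trans (Nat.add_le_add ?_ le_rfl)
    refine (Set.ncard_union_le _ _).trans (Nat.add_le_add ?_ (le_of_eq hm))
    rw [Set.ncard_singleton]
  have h11 := h1.2
  have h12 := h2.2
  omega

open Cardinal in
theorem card_le_pow (h : IsColouring c) {Y S : Set U}
    (hS : ∀ y ∈ Y, ∀ g, ∃ w ∈ S, w ≠ y ∧ c w y = g) : #Y ≤ #S ^ 6 := by
  classical
  choose! f hf1 hf2 hf3 using hS
  let F : Y → (ZMod 6 → S) := fun y g => ⟨f y.1 g, hf1 y.1 y.2 g⟩
  have hF : Function.Injective F := by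
    intro y y' hyy
    by_contra hne
    have hne' : (y : U) ≠ (y' : U) := fun e => hne (Subtype.ext e)
    set g : ZMod 6 := c y y' - 2 with hg
    have h1 : f y.1 g = f y'.1 g := Subtype.mk.inj (congrFun hyy g)
    have h2 := hf3 y.1 y.2 g
    have h3 := hf3 y'.1 y'.2 g
    have h4 := hf2 y.1 y.2 g
    have h5 := hf2 y'.1 y'.2 g
    rw [← h1] at h3 h5
    have h6 := h.ne_add_two (w := f y.1 g) (i := g) hne'
      (h.mem_cn_comm.mp ⟨h4, h2⟩) (h.mem_cn_comm.mp ⟨h5, h3⟩)
    exact h6 (by rw [hg]; ring)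
  have h1 := mk_le_of_injective hF
  rw [mk_arrow, Cardinal.mk_fintype (ZMod 6), ZMod.card, Cardinal.lift_natCast,
    Cardinal.power_natCast, Cardinal.lift_uzero] at h1
  exact h1

open Cardinal in
theorem infinite_bound (h : IsColouring c) (x : U) (a : ZMod 6) (hinf : Infinite U) :
    #(cn c a x) = #U := by
  refine le_antisymm (mk_set_le _) ?_
  have hk : ℵ₀ ≤ #(cn c a x) := by
    rw [← not_lt, Cardinal.lt_aleph0_iff_set_finite]
    intro hfin
    exact not_finite_iff_infinite.mpr hinf (finite_bound h x a hfin).1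
  have hd0 : ∀ a e g : ZMod 6, (e = a + 1 ∨ e = a + 3 ∨ e = a + 5) → ¬ Forbidden e a g := by
    decide
  have hd1 : ∀ a : ZMod 6, (∀ g, g ≠ a + 4 → ¬ Forbidden (a + 4) a g) := by decide
  have hd2 : ∀ a : ZMod 6, (∀ g, g ≠ a → ¬ Forbidden (a + 2) a g) ∧
      ¬ Forbidden (a + 2) (a + 4) a := by decide
  have hx : #({x} : Set U) ≤ #(cn c a x) := by
    rw [mk_singleton]
    exact le_trans (le_of_lt one_lt_aleph0) hk
  have h1 : #{y | x ≠ y ∧ (c x y = a + 1 ∨ c x y = a + 3 ∨ c x y = a + 5)} ≤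
      #(cn c a x) := by
    refine le_trans (card_le_pow h (S := cn c a x) ?_) (power_nat_le hk)
    intro y hy g
    obtain ⟨w, hw1, hw2, hw3, hw4⟩ := h.witness x y hy.1 a g (hd0 a _ g hy.2)
    exact ⟨w, ⟨hw1.symm, hw3⟩, hw2, hw4⟩
  have h2 : #(cn c (a + 4) x) ≤ #(cn c a x) := by
    refine le_trans (card_le_pow h (S := {x} ∪ cn c a x) ?_) ?_
    · intro y hy g
      by_cases hg : g = a + 4
      · exact ⟨x, Or.inl rfl, hy.1, by rw [hg]; exact hy.2⟩
      · obtain ⟨w, hw1, hw2, hw3, hw4⟩ := h.witness x y hy.1 a g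
          (by rw [hy.2]; exact hd1 a g hg)
        exact ⟨w, Or.inr ⟨hw1.symm, hw3⟩, hw2, hw4⟩
    · refine le_trans (power_le_power_right ?_) (power_nat_le hk)
      exact le_trans (mk_union_le _ _) (add_le_of_le hk hx le_rfl)
  have h3 : #(cn c (a + 2) x) ≤ #(cn c a x) := by
    refine le_trans (card_le_pow h (S := cn c (a + 4) x ∪ cn c a x) ?_) ?_
    · intro y hy g
      by_cases hg : g = a
      · obtain ⟨w, hw1, hw2, hw3, hw4⟩ := h.witness x y hy.1 (a + 4) g
          (by rw [hy.2, hg]; exact (hd2 a).2)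
        exact ⟨w, Or.inl ⟨hw1.symm, hw3⟩, hw2, hw4⟩
      · obtain ⟨w, hw1, hw2, hw3, hw4⟩ := h.witness x y hy.1 a g
          (by rw [hy.2]; exact (hd2 a).1 g hg)
        exact ⟨w, Or.inr ⟨hw1.symm, hw3⟩, hw2, hw4⟩
    · refine le_trans (power_le_power_right ?_) (power_nat_le hk)
      exact le_trans (mk_union_le _ _) (add_le_of_le hk h2 le_rfl)
  rw [← mk_univ, univ_eq_union (c := c) x a]
  refine le_trans (mk_union_le _ _) (add_le_of_le hk ?_ h3)
  refine le_trans (mk_union_le _ _) (add_le_of_le hk ?_ h2)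
  refine le_trans (mk_union_le _ _) (add_le_of_le hk ?_ h1)
  exact le_trans (mk_union_le _ _) (add_le_of_le hk hx le_rfl)

end

/-- Let `x` be a point of a representation of `A_6([i,i,i+2])` and `a` a colour. If the
neighbourhood `N_a(x)` is finite, with `m` points, then the representation is finite and has at
most `1 + m + (m)_5 / 9 + (m)_4 / 3 + (m)_4 ^ 2 / 9` points, where `(m)_k = m(m-1)...(m-k+1)`. If
the representation is infinite, then `N_a(x)` has the cardinality of the set of points. -/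
theorem result {U : Type u} {r : Set Atom → Set (U × U)} (hr : IsRepresentation U r)
    (x : U) (a : ZMod 6) :
    ((nbr r a x).Finite → Finite U ∧
      9 * Nat.card U ≤ 9 + 9 * (nbr r a x).ncard + (nbr r a x).ncard.descFactorial 5 +
        3 * (nbr r a x).ncard.descFactorial 4 + (nbr r a x).ncard.descFactorial 4 ^ 2) ∧
    (Infinite U → Cardinal.mk (nbr r a x) = Cardinal.mk U) := by
  obtain ⟨c, hc, hiff⟩ := colouring_of_rep hr
  have h1 : nbr r a x = cn c a x := by
    ext y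
    exact hiff x y a
  rw [h1]
  exact ⟨finite_bound hc x a, infinite_bound hc x a⟩

end Pool.Agent.Results.MP_cf0286_al.NeighbourhoodBound
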